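import Pool.Agent.Helper64.HG.Stmts

set_option autoImplicit false

namespace Pool.Agent.Helper64.HG

/-- a model on a subset, extended by zero -/
structure Glue1M {V : Type} (G : SimpleGraph V) (S : Set V) (x : V) (L R : V → ℝ) : Prop where
  lt : ∀ v ∈ S, L v < R v
  injl : ∀ u ∈ S, ∀ v ∈ S, L u = L v → u = v
  injr : ∀ u ∈ S, ∀ v ∈ S, R u = R v → u = v
  ne : ∀ u ∈ S, ∀ v ∈ S, L u ≠ R v
  adj : ∀ u ∈ S, ∀ v ∈ S, (G.Adj u v ↔ Ovl L R u v)
  first : ∀ v ∈ S, v ≠ x → L x < L v

theorem glue1_ext (hROT : ST_ROT) {V : Type} [Finite V] (G : SimpleGraph V) (S : Set V) (x : V)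
    (hx : x ∈ S) (h : Circ (G.induce S)) : ∃ L R : V → ℝ, Glue1M G S x L R := by
  classical
  obtain ⟨l, r, hm, hf⟩ := hROT S (G.induce S) ⟨x, hx⟩ h
  refine ⟨fun v => if h : v ∈ S then l ⟨v, h⟩ else 0, fun v => if h : v ∈ S then r ⟨v, h⟩ else 0,
    ?_, ?_, ?_, ?_, ?_, ?_⟩
  · intro v hv
    simp only [dif_pos hv]
    exact hm.lt _
  · intro u hu v hv h1
    simp only [dif_pos hv, dif_pos hu] at h1
    exact congrArg Subtype.val (hm.injl h1)
  · intro u hu v hv h1
    simp only [dif_pos hv, dif_pos hu] at h1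
    exact congrArg Subtype.val (hm.injr h1)
  · intro u hu v hv h1
    simp only [dif_pos hv, dif_pos hu] at h1
    exact hm.ne _ _ h1
  · intro u hu v hv
    have h1 := hm.adj ⟨u, hu⟩ ⟨v, hv⟩
    simp only [Ovl, dif_pos hv, dif_pos hu] at h1 ⊢
    rw [← h1]
    rfl
  · intro v hv hvx
    simp only [dif_pos hv, dif_pos hx]
    apply hf
    intro h1
    exact hvx (congrArg Subtype.val h1)

theorem glue1_bound {V : Type} [Finite V] (f : V → ℝ) : ∃ M : ℝ, ∀ v, |f v| ≤ M := by
  obtain ⟨M, hM⟩ := (Set.finite_range (fun v => |f v|)).bddAbove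
  exact ⟨M, fun v => hM ⟨v, rfl⟩⟩

open Classical in
theorem st_GLUE1 (hXFER : ST_XFER) (hROT : ST_ROT) : ST_GLUE1 := by
  intro V _ G x A B hcov hxA hxB hAB h1 h2
  obtain ⟨L1, R1, m1⟩ := glue1_ext hROT G (insert x A) x (Set.mem_insert _ _) h1
  obtain ⟨L2, R2, m2⟩ := glue1_ext hROT G (insert x B) x (Set.mem_insert _ _) h2
  obtain ⟨M1, hM1⟩ := glue1_bound L1
  obtain ⟨M2, hM2⟩ := glue1_bound R1
  obtain ⟨M3, hM3⟩ := glue1_bound L2
  obtain ⟨M4, hM4⟩ := glue1_bound R2
  obtain ⟨M, hM⟩ : ∃ M : ℝ, M = M1 + M2 + M3 + M4 + 1 := ⟨_, rfl⟩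
  have b1 : ∀ v, -M < L1 v ∧ L1 v < M ∧ -M < R1 v ∧ R1 v < M ∧ -M < L2 v ∧ L2 v < M ∧
      -M < R2 v ∧ R2 v < M := by
    intro v
    have e1 := abs_le.1 (hM1 v)
    have e2 := abs_le.1 (hM2 v)
    have e3 := abs_le.1 (hM3 v)
    have e4 := abs_le.1 (hM4 v)
    have f1 := (abs_nonneg _).trans (hM1 v)
    have f2 := (abs_nonneg _).trans (hM2 v)
    have f3 := (abs_nonneg _).trans (hM3 v)
    have f4 := (abs_nonneg _).trans (hM4 v)
    subst hM
    refine ⟨?_, ?_, ?_, ?_, ?_, ?_, ?_, ?_⟩ <;> linarith only [e1.1, e1.2, e2.1, e2.2, e3.1,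
      e3.2, e4.1, e4.2, f1, f2, f3, f4]
  clear hM1 hM2 hM3 hM4 hM
  set l : V → ℝ := fun v => if v = x then -5 * M else if v ∈ A then L1 v + 10 * M else
    if R2 v < R2 x then L2 v else if L2 v < R2 x then R2 v - 10 * M else L2 v - 10 * M with hl
  set r : V → ℝ := fun v => if v = x then R1 x + 10 * M else if v ∈ A then R1 v + 10 * M else
    if R2 v < R2 x then R2 v else if L2 v < R2 x then L2 v else R2 v - 10 * M with hr
  have hxA' : x ∈ insert x A := Set.mem_insert _ _
  have hxB' : x ∈ insert x B := Set.mem_insert _ _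
  -- the classes
  have spec : ∀ v, (v = x ∧ l v = -5 * M ∧ r v = R1 x + 10 * M) ∨
      (v ∈ A ∧ v ≠ x ∧ l v = L1 v + 10 * M ∧ r v = R1 v + 10 * M) ∨
      (v ∈ B ∧ v ≠ x ∧ ((R2 v < R2 x ∧ l v = L2 v ∧ r v = R2 v) ∨
        (R2 x < R2 v ∧ L2 v < R2 x ∧ l v = R2 v - 10 * M ∧ r v = L2 v) ∨
        (R2 x < L2 v ∧ l v = L2 v - 10 * M ∧ r v = R2 v - 10 * M))) := by
    intro v
    by_cases hv : v = x
    · left
      simp only [hl, hr, if_pos hv]
      exact ⟨hv, trivial, trivial⟩
    · by_cases hvA : v ∈ A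
      · right; left
        simp only [hl, hr, if_neg hv, if_pos hvA]
        exact ⟨hvA, hv, trivial, trivial⟩
      · right; right
        have hvB : v ∈ B := by
          rcases hcov v with h | h | h
          · exact absurd h hv
          · exact absurd h hvA
          · exact h
        refine ⟨hvB, hv, ?_⟩
        have hvB' : v ∈ insert x B := Set.mem_insert_of_mem _ hvB
        by_cases c1 : R2 v < R2 x
        · left
          simp only [hl, hr, if_neg hv, if_neg hvA, if_pos c1]
          exact ⟨c1, trivial, trivial⟩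
        · right
          have c1' : R2 x < R2 v := by
            rcases lt_trichotomy (R2 v) (R2 x) with h | h | h
            · exact absurd h c1
            · exact absurd (m2.injr v hvB' x hxB' h) hv
            · exact h
          by_cases c2 : L2 v < R2 x
          · left
            simp only [hl, hr, if_neg hv, if_neg hvA, if_neg c1, if_pos c2]
            exact ⟨c1', c2, trivial, trivial⟩
          · right
            simp only [hl, hr, if_neg hv, if_neg hvA, if_neg c1, if_neg c2]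
            refine ⟨?_, trivial, trivial⟩
            rcases lt_trichotomy (L2 v) (R2 x) with h | h | h
            · exact absurd h c2
            · exact absurd h (m2.ne v hvB' x hxB')
            · exact h
  clear_value l r
  apply hXFER V ℝ G l r
  have bx := b1 x
  have px1 := m1.lt x hxA'
  have px2 := m2.lt x hxB'
  have symm : ∀ u v, Ovl l r u v → Ovl l r v u := by
    rintro u v (h | h)
    · exact Or.inr h
    · exact Or.inl h
  refine ⟨?_, ?_, ?_, ?_, ?_⟩
  · intro v
    have bv := b1 v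
    rcases spec v with ⟨hv, e1, e2⟩ | ⟨hv, hvx, e1, e2⟩ | ⟨hv, hvx, h⟩
    · rw [e1, e2]
      linarith
    · rw [e1, e2]
      have := m1.lt v (Set.mem_insert_of_mem _ hv)
      linarith
    · have := m2.lt v (Set.mem_insert_of_mem _ hv)
      rcases h with ⟨e0, e1, e2⟩ | ⟨e0, e0', e1, e2⟩ | ⟨e0, e1, e2⟩ <;> rw [e1, e2] <;> linarith
  · intro u v huv
    have bu := b1 u
    have bv := b1 v
    rcases spec u with ⟨hu, e1, e2⟩ | ⟨hu, hux, e1, e2⟩ | ⟨hu, hux, h⟩
    · rcases spec v with ⟨hv, f1, f2⟩ | ⟨hv, hvx, f1, f2⟩ | ⟨hv, hvx, k⟩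
      · rw [hu, hv]
      · rw [e1, f1] at huv
        linarith
      · rcases k with ⟨f0, f1, f2⟩ | ⟨f0, f0', f1, f2⟩ | ⟨f0, f1, f2⟩ <;> rw [e1, f1] at huv <;>
          linarith
    · rcases spec v with ⟨hv, f1, f2⟩ | ⟨hv, hvx, f1, f2⟩ | ⟨hv, hvx, k⟩
      · rw [e1, f1] at huv
        linarith
      · rw [e1, f1] at huv
        exact m1.injl u (Set.mem_insert_of_mem _ hu) v (Set.mem_insert_of_mem _ hv)
          (by linarith)
      · rcases k with ⟨f0, f1, f2⟩ | ⟨f0, f0', f1, f2⟩ | ⟨f0, f1, f2⟩ <;> rw [e1, f1] at huv <;>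
          linarith
    · have hu' : u ∈ insert x B := Set.mem_insert_of_mem _ hu
      rcases spec v with ⟨hv, f1, f2⟩ | ⟨hv, hvx, f1, f2⟩ | ⟨hv, hvx, k⟩
      · rcases h with ⟨e0, e1, e2⟩ | ⟨e0, e0', e1, e2⟩ | ⟨e0, e1, e2⟩ <;> rw [e1, f1] at huv <;>
          linarith
      · rcases h with ⟨e0, e1, e2⟩ | ⟨e0, e0', e1, e2⟩ | ⟨e0, e1, e2⟩ <;> rw [e1, f1] at huv <;>
          linarith
      · have hv' : v ∈ insert x B := Set.mem_insert_of_mem _ hv
        rcases h with ⟨e0, e1, e2⟩ | ⟨e0, e0', e1, e2⟩ | ⟨e0, e1, e2⟩ <;>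
          rcases k with ⟨f0, f1, f2⟩ | ⟨f0, f0', f1, f2⟩ | ⟨f0, f1, f2⟩ <;>
          rw [e1, f1] at huv <;>
          first
            | exact m2.injl u hu' v hv' (by linarith)
            | exact m2.injr u hu' v hv' (by linarith)
            | exact absurd (show L2 u = R2 v by linarith) (m2.ne u hu' v hv')
            | exact absurd (show L2 v = R2 u by linarith) (m2.ne v hv' u hu')
            | (exfalso; linarith)
  · intro u v huv
    have bu := b1 u
    have bv := b1 v
    rcases spec u with ⟨hu, e1, e2⟩ | ⟨hu, hux, e1, e2⟩ | ⟨hu, hux, h⟩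
    · rcases spec v with ⟨hv, f1, f2⟩ | ⟨hv, hvx, f1, f2⟩ | ⟨hv, hvx, k⟩
      · rw [hu, hv]
      · rw [e2, f2] at huv
        have := m1.injr x hxA' v (Set.mem_insert_of_mem _ hv) (by linarith)
        exact absurd this.symm hvx
      · rcases k with ⟨f0, f1, f2⟩ | ⟨f0, f0', f1, f2⟩ | ⟨f0, f1, f2⟩ <;> rw [e2, f2] at huv <;>
          linarith
    · rcases spec v with ⟨hv, f1, f2⟩ | ⟨hv, hvx, f1, f2⟩ | ⟨hv, hvx, k⟩
      · rw [e2, f2] at huv
        have := m1.injr u (Set.mem_insert_of_mem _ hu) x hxA' (by linarith)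
        exact absurd this hux
      · rw [e2, f2] at huv
        exact m1.injr u (Set.mem_insert_of_mem _ hu) v (Set.mem_insert_of_mem _ hv)
          (by linarith)
      · rcases k with ⟨f0, f1, f2⟩ | ⟨f0, f0', f1, f2⟩ | ⟨f0, f1, f2⟩ <;> rw [e2, f2] at huv <;>
          linarith
    · have hu' : u ∈ insert x B := Set.mem_insert_of_mem _ hu
      rcases spec v with ⟨hv, f1, f2⟩ | ⟨hv, hvx, f1, f2⟩ | ⟨hv, hvx, k⟩
      · rcases h with ⟨e0, e1, e2⟩ | ⟨e0, e0', e1, e2⟩ | ⟨e0, e1, e2⟩ <;> rw [e2, f2] at huv <;>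
          linarith
      · rcases h with ⟨e0, e1, e2⟩ | ⟨e0, e0', e1, e2⟩ | ⟨e0, e1, e2⟩ <;> rw [e2, f2] at huv <;>
          linarith
      · have hv' : v ∈ insert x B := Set.mem_insert_of_mem _ hv
        rcases h with ⟨e0, e1, e2⟩ | ⟨e0, e0', e1, e2⟩ | ⟨e0, e1, e2⟩ <;>
          rcases k with ⟨f0, f1, f2⟩ | ⟨f0, f0', f1, f2⟩ | ⟨f0, f1, f2⟩ <;>
          rw [e2, f2] at huv <;>
          first
            | exact m2.injl u hu' v hv' (by linarith)
            | exact m2.injr u hu' v hv' (by linarith)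
            | exact absurd (show L2 u = R2 v by linarith) (m2.ne u hu' v hv')
            | exact absurd (show L2 v = R2 u by linarith) (m2.ne v hv' u hu')
            | (exfalso; linarith)
  · intro u v huv
    have bu := b1 u
    have bv := b1 v
    rcases spec u with ⟨hu, e1, e2⟩ | ⟨hu, hux, e1, e2⟩ | ⟨hu, hux, h⟩
    · rcases spec v with ⟨hv, f1, f2⟩ | ⟨hv, hvx, f1, f2⟩ | ⟨hv, hvx, k⟩
      · rw [e1, f2] at huv
        linarith
      · rw [e1, f2] at huv
        linarith
      · rcases k with ⟨f0, f1, f2⟩ | ⟨f0, f0', f1, f2⟩ | ⟨f0, f1, f2⟩ <;> rw [e1, f2] at huv <;>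
          linarith
    · rcases spec v with ⟨hv, f1, f2⟩ | ⟨hv, hvx, f1, f2⟩ | ⟨hv, hvx, k⟩
      · rw [e1, f2] at huv
        exact m1.ne u (Set.mem_insert_of_mem _ hu) x hxA' (by linarith)
      · rw [e1, f2] at huv
        exact m1.ne u (Set.mem_insert_of_mem _ hu) v (Set.mem_insert_of_mem _ hv)
          (by linarith)
      · rcases k with ⟨f0, f1, f2⟩ | ⟨f0, f0', f1, f2⟩ | ⟨f0, f1, f2⟩ <;> rw [e1, f2] at huv <;>
          linarith
    · have hu' : u ∈ insert x B := Set.mem_insert_of_mem _ hu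
      rcases spec v with ⟨hv, f1, f2⟩ | ⟨hv, hvx, f1, f2⟩ | ⟨hv, hvx, k⟩
      · rcases h with ⟨e0, e1, e2⟩ | ⟨e0, e0', e1, e2⟩ | ⟨e0, e1, e2⟩ <;> rw [e1, f2] at huv <;>
          linarith
      · rcases h with ⟨e0, e1, e2⟩ | ⟨e0, e0', e1, e2⟩ | ⟨e0, e1, e2⟩ <;> rw [e1, f2] at huv <;>
          linarith
      · have hv' : v ∈ insert x B := Set.mem_insert_of_mem _ hv
        have hlu := m2.lt u hu'
        have hlv := m2.lt v hv'
        rcases h with ⟨e0, e1, e2⟩ | ⟨e0, e0', e1, e2⟩ | ⟨e0, e1, e2⟩ <;>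
          rcases k with ⟨f0, f1, f2⟩ | ⟨f0, f0', f1, f2⟩ | ⟨f0, f1, f2⟩ <;>
          rw [e1, f2] at huv <;>
          first
            | exact m2.ne u hu' v hv' (by linarith)
            | exact m2.ne v hv' u hu' (by linarith)
            | (have h9 := m2.injr u hu' v hv' (by linarith); subst h9; linarith)
            | (have h9 := m2.injl u hu' v hv' (by linarith); subst h9; linarith)
            | (exfalso; linarith)
  · -- adjacency
    have key : ∀ u v, v ∈ B → v ≠ x → u ≠ x → (u ∈ A ∨ u ∈ B) → (G.Adj u v ↔ Ovl l r u v) := by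
      intro u v hv hvx hux hu
      have bu := b1 u
      have bv := b1 v
      have hv' : v ∈ insert x B := Set.mem_insert_of_mem _ hv
      have hlv := m2.lt v hv'
      rcases hu with hu | hu
      · have hno := (hAB u hu v hv).2
        have hu' : u ∈ insert x A := Set.mem_insert_of_mem _ hu
        have hlu := m1.lt u hu'
        rcases spec u with ⟨hu2, e1, e2⟩ | ⟨hu2, _, e1, e2⟩ | ⟨hu2, _, h⟩
        · exact absurd hu2 hux
        · rcases spec v with ⟨hv2, f1, f2⟩ | ⟨hv2, _, f1, f2⟩ | ⟨hv2, _, k⟩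
          · exact absurd hv2 hvx
          · exact absurd rfl (hAB v hv2 v hv).1
          · refine ⟨fun h => absurd h hno, fun h => ?_⟩
            exfalso
            simp only [Ovl] at h
            rcases k with ⟨f0, f1, f2⟩ | ⟨f0, f0', f1, f2⟩ | ⟨f0, f1, f2⟩ <;>
              rw [e1, e2, f1, f2] at h <;>
              rcases h with ⟨g1, g2, g3⟩ | ⟨g1, g2, g3⟩ <;> linarith
        · exact absurd rfl (hAB u hu u hu2).1
      · have hu' : u ∈ insert x B := Set.mem_insert_of_mem _ hu
        have hlu := m2.lt u hu'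
        rw [m2.adj u hu' v hv']
        rcases spec u with ⟨hu2, e1, e2⟩ | ⟨hu2, _, e1, e2⟩ | ⟨hu2, _, h⟩
        · exact absurd hu2 hux
        · exact absurd rfl (hAB u hu2 u hu).1
        · rcases spec v with ⟨hv2, f1, f2⟩ | ⟨hv2, _, f1, f2⟩ | ⟨hv2, _, k⟩
          · exact absurd hv2 hvx
          · exact absurd rfl (hAB v hv2 v hv).1
          · simp only [Ovl]
            rcases h with ⟨e0, e1, e2⟩ | ⟨e0, e0', e1, e2⟩ | ⟨e0, e1, e2⟩ <;>
              rcases k with ⟨f0, f1, f2⟩ | ⟨f0, f0', f1, f2⟩ | ⟨f0, f1, f2⟩ <;>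
              rw [e1, e2, f1, f2] <;>
              constructor <;>
              rintro (⟨g1, g2, g3⟩ | ⟨g1, g2, g3⟩) <;>
              first
                | (left; refine ⟨?_, ?_, ?_⟩ <;> linarith)
                | (right; refine ⟨?_, ?_, ?_⟩ <;> linarith)
                | (exfalso; linarith)
    have keyx : ∀ v, v ≠ x → (G.Adj x v ↔ Ovl l r x v) := by
      intro v hvx
      have bv := b1 v
      rcases spec x with ⟨_, e1, e2⟩ | ⟨hu2, _⟩ | ⟨hu2, _⟩
      · rcases spec v with ⟨hv2, f1, f2⟩ | ⟨hv2, _, f1, f2⟩ | ⟨hv2, _, k⟩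
        · exact absurd hv2 hvx
        · have hv' : v ∈ insert x A := Set.mem_insert_of_mem _ hv2
          have hlv := m1.lt v hv'
          have hfv := m1.first v hv' hvx
          rw [m1.adj x hxA' v hv']
          simp only [Ovl]
          rw [e1, e2, f1, f2]
          constructor <;>
            rintro (⟨g1, g2, g3⟩ | ⟨g1, g2, g3⟩) <;>
            first
              | (left; refine ⟨?_, ?_, ?_⟩ <;> linarith)
              | (right; refine ⟨?_, ?_, ?_⟩ <;> linarith)
              | (exfalso; linarith)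
        · have hv' : v ∈ insert x B := Set.mem_insert_of_mem _ hv2
          have hlv := m2.lt v hv'
          have hfv := m2.first v hv' hvx
          rw [m2.adj x hxB' v hv']
          simp only [Ovl]
          rcases k with ⟨f0, f1, f2⟩ | ⟨f0, f0', f1, f2⟩ | ⟨f0, f1, f2⟩ <;>
            rw [e1, e2, f1, f2] <;>
            constructor <;>
            rintro (⟨g1, g2, g3⟩ | ⟨g1, g2, g3⟩) <;>
            first
              | (left; refine ⟨?_, ?_, ?_⟩ <;> linarith)
              | (right; refine ⟨?_, ?_, ?_⟩ <;> linarith)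
              | (exfalso; linarith)
      · exact absurd hu2 hxA
      · exact absurd hu2 hxB
    intro u v
    by_cases hux : u = x
    · subst hux
      by_cases hvx : v = u
      · subst hvx
        simp only [Ovl, SimpleGraph.irrefl, lt_irrefl, false_and, or_self]
      · exact keyx v hvx
    · by_cases hvx : v = x
      · subst hvx
        rw [G.adj_comm, keyx u hux]
        exact ⟨symm _ _, symm _ _⟩
      · have hu : u ∈ A ∨ u ∈ B := by
          rcases hcov u with h | h | h
          · exact absurd h hux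
          · exact Or.inl h
          · exact Or.inr h
        have hv : v ∈ A ∨ v ∈ B := by
          rcases hcov v with h | h | h
          · exact absurd h hvx
          · exact Or.inl h
          · exact Or.inr h
        rcases hv with hv | hv
        · rcases hu with hu | hu
          · have hu' : u ∈ insert x A := Set.mem_insert_of_mem _ hu
            have hv' : v ∈ insert x A := Set.mem_insert_of_mem _ hv
            have hlu := m1.lt u hu'
            have hlv := m1.lt v hv'
            rw [m1.adj u hu' v hv']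
            rcases spec u with ⟨hu2, e1, e2⟩ | ⟨hu2, _, e1, e2⟩ | ⟨hu2, _, h⟩
            · exact absurd hu2 hux
            · rcases spec v with ⟨hv2, f1, f2⟩ | ⟨hv2, _, f1, f2⟩ | ⟨hv2, _, k⟩
              · exact absurd hv2 hvx
              · simp only [Ovl]
                rw [e1, e2, f1, f2]
                constructor <;>
                  rintro (⟨g1, g2, g3⟩ | ⟨g1, g2, g3⟩) <;>
                  first
                    | (left; refine ⟨?_, ?_, ?_⟩ <;> linarith)
                    | (right; refine ⟨?_, ?_, ?_⟩ <;> linarith)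
                    | (exfalso; linarith)
              · exact absurd rfl (hAB v hv v hv2).1
            · exact absurd rfl (hAB u hu u hu2).1
          · rw [G.adj_comm, key v u hu hux hvx (Or.inl hv)]
            exact ⟨symm _ _, symm _ _⟩
        · exact key u v hv hvx hux hu

end Pool.Agent.Helper64.HG
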