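import Pool.Agent.Helper64.HG.Stmts

set_option autoImplicit false

namespace Pool.Agent.Helper64.HG

/-- a path with `n + 1` vertices -/
def LamP {N : Type} (H : SimpleGraph N) (n : ℕ) (f : ℕ → N) : Prop :=
  (∀ i j, i ≤ n → j ≤ n → f i = f j → i = j) ∧ ∀ i, i < n → H.Adj (f i) (f (i + 1))

theorem lam_card {N : Type} [Finite N] (H : SimpleGraph N) (n : ℕ) (f : ℕ → N)
    (h : LamP H n f) : n + 1 ≤ Nat.card N := by
  have h1 : Function.Injective (fun i : Fin (n + 1) => f i) := by
    intro i j hij
    exact Fin.ext (h.1 i j (by omega) (by omega) hij)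
  have h2 := Nat.card_le_card_of_injective _ h1
  rwa [Nat.card_eq_fintype_card, Fintype.card_fin] at h2

theorem lam_exists_max {N : Type} [Finite N] (H : SimpleGraph N) (x : N) :
    ∃ n f, LamP H n f ∧ ∀ g, ¬ LamP H (n + 1) g := by
  classical
  by_contra hcon
  push Not at hcon
  have h : ∀ n, ∃ f, LamP H n f := by
    intro n
    induction n with
    | zero =>
      refine ⟨fun _ => x, ?_, ?_⟩
      · intro i j hi hj _
        omega
      · intro i hi
        omega
    | succ n ih =>
      obtain ⟨f, hf⟩ := ih
      exact hcon n f hf
  obtain ⟨f, hf⟩ := h (Nat.card N)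
  have := lam_card H _ f hf
  omega

theorem lam_zmod (m : ℕ) (hm : 3 ≤ m) [NeZero m] (i j : ZMod m) :
    j = i + 1 ↔ (j.val = i.val + 1 ∨ (i.val + 1 = m ∧ j.val = 0)) := by
  have hi := ZMod.val_lt i
  have hj := ZMod.val_lt j
  have h1 : (1 : ZMod m).val = 1 := by
    have : Fact (1 < m) := ⟨by omega⟩
    exact ZMod.val_one m
  have h2 : (i + 1).val = (i.val + 1) % m := by rw [ZMod.val_add, h1]
  have h3 : j = i + 1 ↔ j.val = (i + 1).val :=
    ⟨fun h => by rw [h], fun h => ZMod.val_injective m h⟩
  rw [h3, h2]
  by_cases h : i.val + 1 = m
  · rw [h, Nat.mod_self]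
    omega
  · rw [Nat.mod_eq_of_lt (by omega)]
    omega

theorem st_LAM : ST_LAM := by
  intro N _ H hconn hdeg
  obtain ⟨x⟩ := hconn.nonempty
  obtain ⟨n, f, hf, hmax⟩ := lam_exists_max H x
  -- inner vertices
  have hinner : ∀ i y, 0 < i → i < n → H.Adj (f i) y → y = f (i - 1) ∨ y = f (i + 1) := by
    intro i y hi hin hy
    have h1 : H.Adj (f i) (f (i - 1)) := by
      have := hf.2 (i - 1) (by omega)
      rw [Nat.sub_add_cancel (by omega)] at this
      exact this.symm
    have h2 := hf.2 i hin
    rcases hdeg (f i) (f (i - 1)) (f (i + 1)) y h1 h2 hy with h | h | h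
    · have := hf.1 _ _ (by omega) (by omega) h
      omega
    · exact Or.inr h.symm
    · exact Or.inl h.symm
  -- closed
  have hclosed : ∀ i y, i ≤ n → H.Adj (f i) y → ∃ j, j ≤ n ∧ y = f j := by
    intro i y hi hy
    by_contra hcon
    push Not at hcon
    rcases Nat.eq_zero_or_pos i with h0 | h0
    · subst h0
      apply hmax (fun j => if j = 0 then y else f (j - 1))
      refine ⟨?_, ?_⟩
      · intro a b ha hb hab
        by_cases ha0 : a = 0
        · by_cases hb0 : b = 0
          · omega
          · simp only [if_pos ha0, if_neg hb0] at hab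
            exact absurd hab (hcon (b - 1) (by omega))
        · by_cases hb0 : b = 0
          · simp only [if_neg ha0, if_pos hb0] at hab
            exact absurd hab.symm (hcon (a - 1) (by omega))
          · simp only [if_neg ha0, if_neg hb0] at hab
            have := hf.1 _ _ (by omega) (by omega) hab
            omega
      · intro a ha
        by_cases ha0 : a = 0
        · subst ha0
          simp only [if_pos, if_neg (by omega : ¬ (0 + 1 = 0)), Nat.zero_add, Nat.sub_self]
          exact hy.symm
        · simp only [if_neg ha0, if_neg (by omega : ¬ (a + 1 = 0)), Nat.add_sub_cancel]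
          have := hf.2 (a - 1) (by omega)
          rwa [Nat.sub_add_cancel (by omega)] at this
    · by_cases hin : i < n
      · rcases hinner i y h0 hin hy with h | h
        · exact hcon (i - 1) (by omega) h
        · exact hcon (i + 1) (by omega) h
      · have hi' : i = n := by omega
        subst hi'
        apply hmax (fun j => if j = i + 1 then y else f j)
        refine ⟨?_, ?_⟩
        · intro a b ha hb hab
          by_cases ha0 : a = i + 1
          · by_cases hb0 : b = i + 1
            · omega
            · simp only [if_pos ha0, if_neg hb0] at hab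
              exact absurd hab (hcon b (by omega))
          · by_cases hb0 : b = i + 1
            · simp only [if_neg ha0, if_pos hb0] at hab
              exact absurd hab.symm (hcon a (by omega))
            · simp only [if_neg ha0, if_neg hb0] at hab
              exact hf.1 _ _ (by omega) (by omega) hab
        · intro a ha
          by_cases ha0 : a = i
          · subst ha0
            simp only [if_neg (by omega : ¬ (a = a + 1)), if_pos]
            exact hy
          · simp only [if_neg (by omega : ¬ (a = i + 1)), if_neg (by omega : ¬ (a + 1 = i + 1))]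
            exact hf.2 a (by omega)
  -- everything is on the path
  have hall : ∀ y, ∃ j, j ≤ n ∧ y = f j := by
    intro y
    obtain ⟨w⟩ := hconn.preconnected (f 0) y
    have hw : ∀ (a b : N), H.Walk a b → (∃ j, j ≤ n ∧ a = f j) → ∃ j, j ≤ n ∧ b = f j := by
      intro a b w
      induction w with
      | nil => exact fun h => h
      | cons h _ ih =>
        rintro ⟨j, hj, rfl⟩
        exact ih (hclosed j _ hj h)
    exact hw _ _ w ⟨0, Nat.zero_le _, rfl⟩
  -- adjacency
  have hadj : ∀ i j, i < j → j ≤ n →
      (H.Adj (f i) (f j) ↔ (j = i + 1 ∨ (i = 0 ∧ j = n ∧ H.Adj (f 0) (f n)))) := by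
    intro i j hij hj
    constructor
    · intro h
      by_cases h0 : 0 < i
      · left
        rcases hinner i _ h0 (by omega) h with h1 | h1
        · have := hf.1 _ _ (by omega) (by omega) h1
          omega
        · exact hf.1 _ _ (by omega) (by omega) h1
      · have hi0 : i = 0 := by omega
        by_cases hjn : j = n
        · right
          subst hi0 hjn
          exact ⟨rfl, rfl, h⟩
        · left
          rcases hinner j _ (by omega) (by omega) h.symm with h1 | h1
          · have := hf.1 _ _ (by omega) (by omega) h1
            omega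
          · have := hf.1 _ _ (by omega) (by omega) h1
            omega
    · rintro (h | ⟨h1, h2, h3⟩)
      · rw [h]
        exact hf.2 i (by omega)
      · rw [h1, h2]
        exact h3
  choose pos hpos1 hpos2 using hall
  have hposf : ∀ i, i ≤ n → pos (f i) = i := by
    intro i hi
    exact (hf.1 _ _ hi (hpos1 _) (hpos2 (f i))).symm
  by_cases hcyc : 2 ≤ n ∧ H.Adj (f 0) (f n)
  · right
    obtain ⟨hn2, hcyc⟩ := hcyc
    have : NeZero (n + 1) := ⟨by omega⟩
    refine ⟨n + 1, by omega, fun i => f i.val, ⟨?_, ?_⟩, ?_⟩
    · intro i j hij
      have hi := ZMod.val_lt i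
      have hj := ZMod.val_lt j
      exact ZMod.val_injective (n + 1) (hf.1 _ _ (by omega) (by omega) hij)
    · intro y
      refine ⟨((pos y : ℕ) : ZMod (n + 1)), ?_⟩
      have h1 := hpos1 y
      show f (((pos y : ℕ) : ZMod (n + 1)).val) = y
      rw [ZMod.val_natCast, Nat.mod_eq_of_lt (by omega)]
      exact (hpos2 y).symm
    · intro i j
      show H.Adj (f i.val) (f j.val) ↔ _
      rw [lam_zmod (n + 1) (by omega) i j, lam_zmod (n + 1) (by omega) j i]
      have hi := ZMod.val_lt i
      have hj := ZMod.val_lt j
      generalize i.val = a at hi ⊢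
      generalize j.val = b at hj ⊢
      rcases lt_trichotomy a b with h | h | h
      · rw [hadj a b h (by omega)]
        constructor
        · rintro (h1 | ⟨h1, h2, _⟩)
          · left; left; exact h1
          · right; right; omega
        · rintro ((h1 | ⟨h1, h2⟩) | (h1 | ⟨h1, h2⟩))
          · left; exact h1
          · omega
          · omega
          · right
            exact ⟨h2, by omega, hcyc⟩
      · subst h
        constructor
        · intro h1
          exact absurd h1 (H.irrefl)
        · intro h1
          exfalso
          omega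
      · rw [H.adj_comm, hadj b a h (by omega)]
        constructor
        · rintro (h1 | ⟨h1, h2, _⟩)
          · right; left; exact h1
          · left; right; omega
        · rintro ((h1 | ⟨h1, h2⟩) | (h1 | ⟨h1, h2⟩))
          · omega
          · right
            exact ⟨h2, by omega, hcyc⟩
          · left; exact h1
          · omega
  · left
    have hadj' : ∀ i j, i < j → j ≤ n → (H.Adj (f i) (f j) ↔ j = i + 1) := by
      intro i j hij hj
      rw [hadj i j hij hj]
      constructor
      · rintro (h | ⟨h1, h2, h3⟩)
        · exact h
        · by_contra hne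
          exact hcyc ⟨by omega, h3⟩
      · exact Or.inl
    refine ⟨fun y => (pos y : ℤ), ?_, ?_⟩
    · intro y z hyz
      have h0 : (pos y : ℤ) = (pos z : ℤ) := hyz
      have h1 : pos y = pos z := by exact_mod_cast h0
      rw [hpos2 y, hpos2 z, h1]
    · intro y z
      have h1 := hpos1 y
      have h2 := hpos1 z
      have e1 := hpos2 y
      have e2 := hpos2 z
      have goal : H.Adj (f (pos y)) (f (pos z)) ↔ (pos z = pos y + 1 ∨ pos y = pos z + 1) := by
        rcases lt_trichotomy (pos y) (pos z) with h | h | h
        · rw [hadj' _ _ h h2]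
          omega
        · rw [h]
          constructor
          · intro h3
            exact absurd h3 (H.irrefl)
          · intro h3
            exfalso
            omega
        · rw [H.adj_comm, hadj' _ _ h h1]
          omega
      rw [← e1, ← e2] at goal
      rw [goal]
      show (pos z = pos y + 1 ∨ pos y = pos z + 1) ↔
        ((pos z : ℤ) = (pos y : ℤ) + 1 ∨ (pos y : ℤ) = (pos z : ℤ) + 1)
      omega

end Pool.Agent.Helper64.HG
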