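import Pool.Agent.Helper64.HG.Stmts

set_option autoImplicit false

namespace Pool.Agent.Helper64.HG

theorem st_ONE (hBR : ST_BR) (hSP2 : ST_SP2) : ST_ONE := by
  intro V G hG hW hK hfar L hL y hy a ha b hb hya hyb
  by_contra hab
  have hnab : ¬ G.Adj a b := hG.1 a y b hya.symm hyb
  obtain ⟨A, B, lA, lB, hAB, hcov⟩ := hSP2 V G L a b hL ha hb hab hnab
  have hno : ∀ x ∈ L, x ≠ a → x ≠ b → ¬ G.Adj y x := by
    intro x hx hxa hxb hyx
    exact hW ⟨y, L, a, b, x, hL, hy, ha, hb, hx, hab, hxa.symm, hxb.symm, hya, hyb, hyx⟩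
  have hA : Anti G [y] A := by
    intro z hz x hx
    rw [List.mem_singleton] at hz
    subst hz
    have hxL : x ∈ L := (hcov x).2 (Or.inr (Or.inr (Or.inl hx)))
    refine ⟨fun h => hy (h ▸ hxL), hno x hxL ?_ ?_⟩
    · intro h
      exact lA.2.2.1 (h ▸ hx)
    · intro h
      exact lA.2.2.2.1 (h ▸ hx)
  have hB : Anti G [y] B := by
    intro z hz x hx
    rw [List.mem_singleton] at hz
    subst hz
    have hxL : x ∈ L := (hcov x).2 (Or.inr (Or.inr (Or.inr hx)))
    refine ⟨fun h => hy (h ▸ hxL), hno x hxL ?_ ?_⟩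
    · intro h
      exact lB.2.2.1 (h ▸ hx)
    · intro h
      exact lB.2.2.2.1 (h ▸ hx)
  exact hBR V G a b y A B hG hW hK hya hyb hab lA lB hAB hA hB (hfar y)

end Pool.Agent.Helper64.HG
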