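import Pool.Agent.Helper64.HG.Stmts

set_option autoImplicit false

namespace Pool.Agent.Helper64.HG

/-- graphs with at most two vertices -/
theorem step2_small {V : Type} [Finite V] (G : SimpleGraph V) (h : Nat.card V < 3) : Circ G := by
  classical
  by_cases hsub : Subsingleton V
  · refine ⟨fun _ => 0, fun _ => 1, ?_, ?_, ?_, ?_, ?_⟩
    · intro v
      norm_num
    · intro u v _
      exact Subsingleton.elim u v
    · intro u v _
      exact Subsingleton.elim u v
    · intro u v
      norm_num
    · intro u v
      rw [Subsingleton.elim u v]
      simp [Ovl]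
  · have h2 : Nat.card V = 2 := by
      have h1 : ¬ Nat.card V ≤ 1 := by
        rw [Finite.card_le_one_iff_subsingleton]
        exact hsub
      omega
    obtain ⟨a, b, hab, huniv⟩ := Nat.card_eq_two_iff.1 h2
    have hcov : ∀ x : V, x = a ∨ x = b := by
      intro x
      have : x ∈ ({a, b} : Set V) := by rw [huniv]; trivial
      simpa using this
    have hba : b ≠ a := fun h => hab h.symm
    by_cases hadj : G.Adj a b
    · refine ⟨fun v => if v = a then 0 else 1, fun v => if v = a then 2 else 3, ?_, ?_, ?_, ?_, ?_⟩
      · intro v
        rcases hcov v with rfl | rfl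
        · simp
        · simp only [if_neg hba]; norm_num
      · intro u v huv
        rcases hcov u with rfl | rfl <;> rcases hcov v with rfl | rfl <;>
          simp_all
      · intro u v huv
        rcases hcov u with rfl | rfl <;> rcases hcov v with rfl | rfl <;>
          simp_all
      · intro u v
        rcases hcov u with rfl | rfl <;> rcases hcov v with rfl | rfl <;>
          simp_all
      · intro u v
        rcases hcov u with rfl | rfl <;> rcases hcov v with rfl | rfl
        · simp [Ovl]
        · simp only [Ovl, if_neg hba, if_true]
          norm_num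
          exact hadj
        · simp only [Ovl, if_neg hba, if_true]
          norm_num
          exact hadj.symm
        · simp [Ovl]
    · refine ⟨fun v => if v = a then 0 else 2, fun v => if v = a then 1 else 3, ?_, ?_, ?_, ?_, ?_⟩
      · intro v
        rcases hcov v with rfl | rfl
        · simp
        · simp only [if_neg hba]; norm_num
      · intro u v huv
        rcases hcov u with rfl | rfl <;> rcases hcov v with rfl | rfl <;>
          simp_all
      · intro u v huv
        rcases hcov u with rfl | rfl <;> rcases hcov v with rfl | rfl <;>
          simp_all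
      · intro u v
        rcases hcov u with rfl | rfl <;> rcases hcov v with rfl | rfl <;>
          simp_all
      · intro u v
        rcases hcov u with rfl | rfl <;> rcases hcov v with rfl | rfl
        · simp [Ovl]
        · simp only [Ovl, if_neg hba, if_true]
          norm_num
          exact hadj
        · simp only [Ovl, if_neg hba, if_true]
          norm_num
          exact fun h => hadj h.symm
        · simp [Ovl]

theorem st_STEP2 (hCYCEX : ST_CYCEX) (hEAREX : ST_EAREX) (hONE : ST_ONE) (hEAR : ST_EAR)
    (hCC : ST_CC) (hSP1 : ST_SP1) (hCYC : ST_CYC) : ST_STEP2 := by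
  intro V _ G hG hObs hT hfar
  have hnT : ¬ HasT G := fun h => hObs (Or.inl h)
  have hnW : ¬ HasW G := fun h => hObs (Or.inr (Or.inr (Or.inr (Or.inl h))))
  have hnK : ¬ HasK G := fun h => hObs (Or.inr (Or.inr (Or.inr (Or.inr h))))
  by_cases hcard : Nat.card V < 3
  · exact step2_small G hcard
  · have hone : OneP G := hONE V G hG hnW hnK hfar
    obtain ⟨L, hL⟩ := hCYCEX V G hT (by omega) hG
    by_cases hcov : ∀ x, x ∈ L
    · exact hCYC V G L hL hcov
    · exfalso
      push Not at hcov
      obtain ⟨E, s, t, hs, ht, hst, hE, hEL, hEn⟩ := hEAREX V G L hT hone hL hcov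
      have hadj := hEAR V G L E s t hG hnT hone hL hs ht hst hE hEL hEn
      obtain ⟨Q, hQ, hQc⟩ := hSP1 V G L s t hL hs ht hadj
      have hQE : Anti G Q E := by
        intro q hq e he
        have hqL : q ∈ L := (hQc q).2 (Or.inr (Or.inr hq))
        refine ⟨fun h => hEL e he (h ▸ hqL), fun h => ?_⟩
        refine hEn e he q hqL ?_ ?_ h.symm
        · intro h1
          exact hQ.2.2.2.1 (h1 ▸ hq)
        · intro h1
          exact hQ.2.2.1 (h1 ▸ hq)
      exact hCC V G s t Q E hG hnT hnW hnK hone hadj hQ hE hQE (hfar s)

end Pool.Agent.Helper64.HG
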